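import Mathlib

/-!
# Subshifts that are avo for convex sets are of finite type on convex sets

The points of a finite convex set can be added one at a time, keeping the set convex (remove extreme
points); together with the forbidden patterns of the subshift, the patterns supported in the window of
the avo property that are not globally valid therefore form a finite set of forbidden patterns for
which local validity on finite convex sets implies global validity.
-/

set_option autoImplicit false

namespace Pool.Agent.Results.MP_d66889_lc.AvoConvex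

/-- A pattern: a map from a finite subset of `ℤ ^ d` to `A`. -/
structure Pat (d : ℕ) (A : Type) where
  /-- the support -/
  D : Finset (Fin d → ℤ)
  /-- the values -/
  val : (v : Fin d → ℤ) → v ∈ D → A

/-- Some translate of the pattern `q` occurs in the configuration `x`. -/
def Occurs {d : ℕ} {A : Type} (q : Pat d A) (x : (Fin d → ℤ) → A) : Prop :=
  ∃ u : Fin d → ℤ, ∀ v, ∀ h : v ∈ q.D, x (v + u) = q.val v h

/-- Some translate of the pattern `q` whose support lies inside the support of the pattern `p` occurs
in `p`. -/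
def OccursIn {d : ℕ} {A : Type} (q p : Pat d A) : Prop :=
  ∃ u : Fin d → ℤ, ∀ v, ∀ h : v ∈ q.D, ∃ h' : v + u ∈ p.D, p.val (v + u) h' = q.val v h

/-- The set `X_F` of the configurations in which no translate of a pattern of `F` occurs. -/
def avoid {d : ℕ} {A : Type} (F : Set (Pat d A)) : Set ((Fin d → ℤ) → A) :=
  {x | ∀ q ∈ F, ¬ Occurs q x}

/-- `X` is a subshift of finite type. -/
def IsSFT {d : ℕ} {A : Type} (X : Set ((Fin d → ℤ) → A)) : Prop :=
  ∃ F : Set (Pat d A), F.Finite ∧ X = avoid F

/-- The pattern `p` is globally valid in `X`. -/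
def GloballyValid {d : ℕ} {A : Type} (X : Set ((Fin d → ℤ) → A)) (p : Pat d A) : Prop :=
  ∃ x ∈ X, ∀ v, ∀ h : v ∈ p.D, x v = p.val v h

/-- The pattern `p` is locally valid for `F`. -/
def LocallyValid {d : ℕ} {A : Type} (F : Set (Pat d A)) (p : Pat d A) : Prop :=
  ∀ q ∈ F, ¬ OccursIn q p

/-- The point of `ℝ ^ d` given by a point of `ℤ ^ d`. -/
def real {d : ℕ} (v : Fin d → ℤ) : Fin d → ℝ := fun i => (v i : ℝ)

/-- `C` is convex: it is the set of the integer points of its convex hull. -/
def IsConvex {d : ℕ} (C : Finset (Fin d → ℤ)) : Prop :=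
  (C : Set (Fin d → ℤ)) = {v | real v ∈ convexHull ℝ (real '' (C : Set (Fin d → ℤ)))}

/-- The set of the letters `a` such that the pattern given by `x` on `D` and by `a` at `v` is globally
valid in `X`. -/
def ext {d : ℕ} {A : Type} (X : Set ((Fin d → ℤ) → A)) (x : (Fin d → ℤ) → A)
    (D : Finset (Fin d → ℤ)) (v : Fin d → ℤ) : Set A :=
  {a | ∃ y ∈ X, (∀ u ∈ D, y u = x u) ∧ y v = a}

/-- `X` is avo for convex sets. -/
def Avo {d : ℕ} {A : Type} (X : Set ((Fin d → ℤ) → A)) : Prop :=
  ∃ N : Finset (Fin d → ℤ), ∀ C : Finset (Fin d → ℤ), IsConvex C → ∀ v, v ∉ C →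
    IsConvex (insert v C) → ∀ x ∈ X, ext X x C v = ext X x (C.filter fun u => u - v ∈ N) v

/-- `X` is of finite type on convex sets. -/
def SFTOnConvex {d : ℕ} {A : Type} (X : Set ((Fin d → ℤ) → A)) : Prop :=
  ∃ F : Set (Pat d A), F.Finite ∧ X = avoid F ∧
    ∀ p : Pat d A, IsConvex p.D → LocallyValid F p → GloballyValid X p

theorem real_injective {d : ℕ} : Function.Injective (real (d := d)) := by
  intro v w h
  funext i
  have := congrFun h i
  simpa [real] using this

/-- A nonempty finite convex set contains a point whose removal leaves a convex set. -/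
theorem exists_extreme {d : ℕ} {C : Finset (Fin d → ℤ)} (hC : IsConvex C) (hne : C.Nonempty) :
    ∃ v ∈ C, IsConvex (C.erase v) := by
  classical
  set S : Set (Fin d → ℝ) := real '' (C : Set (Fin d → ℤ)) with hS
  have hfin : S.Finite := C.finite_toSet.image _
  have hcomp : IsCompact (convexHull ℝ S) := hfin.isCompact_convexHull (𝕜 := ℝ)
  have hne' : (convexHull ℝ S).Nonempty := by
    obtain ⟨v, hv⟩ := hne
    exact ⟨real v, subset_convexHull ℝ S ⟨v, hv, rfl⟩⟩
  obtain ⟨z, hz⟩ := hcomp.extremePoints_nonempty hne'
  have hzS : z ∈ S := extremePoints_convexHull_subset hz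
  obtain ⟨v, hv, rfl⟩ := hzS
  refine ⟨v, hv, ?_⟩
  have hconv : Convex ℝ (convexHull ℝ S \ {real v}) :=
    ((convex_convexHull ℝ S).mem_extremePoints_iff_convex_sdiff.1 hz).2
  unfold IsConvex
  apply Set.Subset.antisymm
  · intro w hw
    exact subset_convexHull ℝ _ ⟨w, hw, rfl⟩
  · intro w hw
    have hsub : real '' ((C.erase v : Finset (Fin d → ℤ)) : Set (Fin d → ℤ)) ⊆
        convexHull ℝ S \ {real v} := by
      rintro _ ⟨u, hu, rfl⟩
      rw [Finset.mem_coe, Finset.mem_erase] at hu
      exact ⟨subset_convexHull ℝ S ⟨u, hu.2, rfl⟩, fun h => hu.1 (real_injective h)⟩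
    have h1 := convexHull_min hsub hconv hw
    have h2 : w ∈ (C : Set (Fin d → ℤ)) := by
      rw [hC]
      exact h1.1
    rw [Finset.mem_coe, Finset.mem_erase]
    exact ⟨fun h => h1.2 (by rw [h]; rfl), h2⟩

theorem avoid_shift {d : ℕ} {A : Type} (F : Set (Pat d A)) (x : (Fin d → ℤ) → A)
    (hx : x ∈ avoid F) (u : Fin d → ℤ) : (fun v => x (v + u)) ∈ avoid F := by
  rintro q hq ⟨w, hw⟩
  refine hx q hq ⟨w + u, fun v h => ?_⟩
  rw [← hw v h]
  exact congrArg x (add_assoc v w u).symm

/-- The patterns supported in a finite set form a finite set. -/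
theorem finite_pat {d : ℕ} {A : Type} [Finite A] (M : Finset (Fin d → ℤ)) :
    {p : Pat d A | p.D ⊆ M}.Finite := by
  classical
  have : {p : Pat d A | p.D ⊆ M} ⊆ ⋃ D ∈ M.powerset,
      Set.range (fun f : D → A => (⟨D, fun v h => f ⟨v, h⟩⟩ : Pat d A)) := by
    rintro ⟨D, f⟩ hp
    rw [Set.mem_iUnion₂]
    exact ⟨D, Finset.mem_powerset.2 hp, fun v => f v.1 v.2, rfl⟩
  refine Set.Finite.subset (Set.Finite.biUnion M.powerset.finite_toSet fun D _ => ?_) this
  exact Set.finite_range _

/-- Every subshift of finite type that is avo for convex sets is of finite type on convex sets. -/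
theorem result : ∀ (d : ℕ) (A : Type) [Finite A] (X : Set ((Fin d → ℤ) → A)),
    IsSFT X → Avo X → SFTOnConvex X := by
  classical
  rintro d A _ X ⟨F₀, hF₀, rfl⟩ ⟨N, hN⟩
  set X := avoid F₀ with hX
  set F : Set (Pat d A) := F₀ ∪ {p | p.D ⊆ insert 0 N ∧ ¬ GloballyValid X p} with hF
  refine ⟨F, hF₀.union ((finite_pat (insert 0 N)).subset fun p hp => hp.1), ?_, ?_⟩
  · apply Set.Subset.antisymm
    · rintro x hx q (hq | hq) ⟨u, hu⟩
      · exact hx q hq ⟨u, hu⟩
      · exact hq.2 ⟨_, avoid_shift F₀ x hx u, hu⟩
    · exact fun x hx q hq => hx q (Or.inl hq)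
  · have main : ∀ n : ℕ, ∀ p : Pat d A, p.D.card = n → IsConvex p.D → LocallyValid F p →
        GloballyValid X p := by
      intro n
      induction n with
      | zero =>
        intro p hp _ hl
        have hD : p.D = ∅ := Finset.card_eq_zero.1 hp
        by_contra hg
        refine hl p (Or.inr ⟨by rw [hD]; exact Finset.empty_subset _, hg⟩) ⟨0, fun v h => ?_⟩
        rw [hD] at h
        exact absurd h (Finset.notMem_empty v)
      | succ n ih =>
        rintro ⟨D, f⟩ hp hC hl
        dsimp only at hp hC
        obtain ⟨v, hv, hCv⟩ := exists_extreme hC (Finset.card_pos.1 (by omega))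
        have h1 : GloballyValid X ⟨D.erase v, fun w h => f w (Finset.mem_of_mem_erase h)⟩ := by
          refine ih _ ?_ hCv ?_
          · dsimp only
            rw [Finset.card_erase_of_mem hv]
            omega
          · rintro q hq ⟨u, hu⟩
            refine hl q hq ⟨u, fun w h => ?_⟩
            obtain ⟨h', hh'⟩ := hu w h
            exact ⟨Finset.mem_of_mem_erase h', hh'⟩
        obtain ⟨x, hxX, hx⟩ := h1
        dsimp only at hx
        have h2 := hN (D.erase v) hCv v (Finset.notMem_erase v D)
          (by rw [Finset.insert_erase hv]; exact hC) x hxX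
        have h3 : f v hv ∈ ext X x ((D.erase v).filter fun u => u - v ∈ N) v := by
          by_contra hcon
          set D' : Finset (Fin d → ℤ) := (insert 0 N).filter fun u => u + v ∈ D with hD'
          have hmem : ∀ w, w ∈ D' → w + v ∈ D := fun w hw => (Finset.mem_filter.1 hw).2
          refine hl ⟨D', fun w h => f (w + v) (hmem w h)⟩
            (Or.inr ⟨Finset.filter_subset _ _, ?_⟩) ⟨v, fun w h => ⟨hmem w h, rfl⟩⟩
          rintro ⟨y, hy, hy'⟩
          dsimp only at hy'
          apply hcon
          refine ⟨fun w => y (w + (-v)), avoid_shift F₀ y hy _, fun u hu => ?_, ?_⟩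
          · rw [Finset.mem_filter, Finset.mem_erase] at hu
            have h4 : u + -v ∈ D' := by
              rw [hD', Finset.mem_filter]
              refine ⟨Finset.mem_insert_of_mem ?_, by simpa using hu.1.2⟩
              rw [← sub_eq_add_neg]
              exact hu.2
            dsimp only
            rw [hy' _ h4, hx u (Finset.mem_erase.2 hu.1)]
            congr 1
            simp
          · have h4 : v + -v ∈ D' := by
              rw [hD', Finset.mem_filter]
              refine ⟨by simp, by simpa using hv⟩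
            dsimp only
            rw [hy' _ h4]
            congr 1
            simp
        rw [← h2] at h3
        obtain ⟨y, hy, hyx, hyv⟩ := h3
        refine ⟨y, hy, fun w hw => ?_⟩
        dsimp only at hw ⊢
        by_cases hwv : w = v
        · subst hwv
          exact hyv
        · rw [hyx w (Finset.mem_erase.2 ⟨hwv, hw⟩), hx w (Finset.mem_erase.2 ⟨hwv, hw⟩)]
    exact fun p hC hl => main _ p rfl hC hl

end Pool.Agent.Results.MP_d66889_lc.AvoConvex
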